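import Pool.Agent.H30.HG.Defs
import Pool.Agent.H47.HJ.Road
import Pool.Agent.H47.HJ.RwP
import Pool.Agent.H74.HG.Poly
import Pool.Agent.H94.BM.Walks

/-!
# HG module LeafGeo: what the geometry provides in a base cell (`LeafOK`)

Frame coordinates. The base box of the cell is completely open. One token: path of `Token.lean` from height `1` to
height `hb`, vertical line up to the height `hb + 4 rho 0`, path in the ball to the hub, road along the lane. Two
tokens: disjoint paths to the two lanes. Join: path in the layer of height `1`.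
-/

open MeasureTheory Filter Topology
open Pool.Agent.H17.IIC Pool.Agent.H41.QC Pool.Agent.H47.GM Pool.Agent.H17.QA Pool.Agent.H94.BM
open Pool.Agent.H94.HG Pool.Agent.H47.HJ

namespace Pool.Agent.H42.HG

variable {n : ℕ} {κ : Kind} {p : unitInterval}

/-- side of the base cells -/
def wd (n q0 : ℕ) : ℕ := 2 ^ (q0 + n + 10)

lemma sd_zero (q0 : ℕ) {k : Fin (n + 2)} (hk : k ≠ 0) : Pool.Agent.H30.HG.sd n q0 0 k = wd n q0 := by
  unfold Pool.Agent.H30.HG.sd wd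
  have h1 : (0 + n + 1 - (k : ℕ)) / (n + 1) = 0 := by
    apply Nat.div_eq_of_lt
    have : (k : ℕ) ≠ 0 := fun h => hk (Fin.ext h)
    omega
  rw [h1, add_zero]

lemma rho_zero (n q0 : ℕ) : Pool.Agent.H30.HG.rho n q0 0 = 2 ^ q0 := by
  unfold Pool.Agent.H30.HG.rho
  simp

lemma wd_eq (n q0 : ℕ) : wd n q0 = 2 ^ (n + 10) * Pool.Agent.H30.HG.rho n q0 0 := by
  rw [rho_zero, wd, ← pow_add]
  congr 1
  omega

lemma wd_half (n q0 : ℕ) : wd n q0 / 2 = 2 ^ (n + 9) * Pool.Agent.H30.HG.rho n q0 0 := by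
  rw [wd_eq]
  have : 2 ^ (n + 10) * Pool.Agent.H30.HG.rho n q0 0 = 2 * (2 ^ (n + 9) * Pool.Agent.H30.HG.rho n q0 0) := by
    rw [show n + 10 = (n + 9) + 1 by ring, pow_succ]
    ring
  rw [this, Nat.mul_div_cancel_left _ (by norm_num)]

lemma wd_big (n q0 : ℕ) : 512 * Pool.Agent.H30.HG.rho n q0 0 ≤ wd n q0 / 2 ∧
    wd n q0 = 2 * (wd n q0 / 2) := by
  have h9 : 512 ≤ 2 ^ (n + 9) := by
    rw [pow_add]
    have := Nat.one_le_two_pow (n := n)
    omega
  constructor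
  · rw [wd_half]
    exact Nat.mul_le_mul_right _ h9
  · rw [wd_half, wd_eq, show n + 10 = (n + 9) + 1 by ring, pow_succ]
    ring

/-- corner of the lateral grid -/
def cr (lo : V (n + 2)) : Fin (n + 1) → ℤ := fun j => lo j.succ

/-- lateral position of the lane `s` -/
def Ps (q0 : ℕ) (lo : V (n + 2)) (s : Bool) : Fin (n + 1) → ℤ := fun j =>
  lo j.succ + ((wd n q0 / 2 : ℕ) : ℤ) + sg s * (16 * Pool.Agent.H30.HG.rho n q0 0)

lemma Po_eq (q0 : ℕ) (lo : V (n + 2)) (h : ℤ) (s : Bool) :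
    Pool.Agent.H30.HG.Po q0 0 lo h (sg s * (16 * Pool.Agent.H30.HG.rho n q0 0)) = pt h (Ps q0 lo s) := by
  funext k
  refine Fin.cases ?_ (fun j => ?_) k
  · simp [Pool.Agent.H30.HG.Po]
  · have hj : (j.succ : Fin (n + 2)) ≠ 0 := Fin.succ_ne_zero j
    simp only [Pool.Agent.H30.HG.Po, if_neg hj, pt_succ, Ps]
    rw [sd_zero q0 hj]

lemma ln_eq (q0 : ℕ) (lo : V (n + 2)) (s : Bool) :
    Pool.Agent.H30.HG.ln q0 0 lo s = pt (Pool.Agent.H30.HG.Ht n q0 0 : ℤ) (Ps q0 lo s) := by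
  unfold Pool.Agent.H30.HG.ln
  exact Po_eq q0 lo _ s

lemma sg_cases (s : Bool) : sg s = 1 ∨ sg s = -1 := by
  cases s <;> simp [sg]

lemma Ps_bd (q0 : ℕ) (lo : V (n + 2)) (s : Bool) (j : Fin (n + 1)) :
    lo j.succ + 100 * Pool.Agent.H30.HG.rho n q0 0 ≤ Ps q0 lo s j ∧
      Ps q0 lo s j + 100 * Pool.Agent.H30.HG.rho n q0 0 < lo j.succ + wd n q0 := by
  obtain ⟨h1, h2⟩ := wd_big n q0
  have h3 : (512 * Pool.Agent.H30.HG.rho n q0 0 : ℤ) ≤ ((wd n q0 / 2 : ℕ) : ℤ) := by exact_mod_cast h1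
  have h4 : (wd n q0 : ℤ) = 2 * ((wd n q0 / 2 : ℕ) : ℤ) := by exact_mod_cast h2
  have h5 : (1 : ℤ) ≤ Pool.Agent.H30.HG.rho n q0 0 := by exact_mod_cast Pool.Agent.H30.HG.rho_pos n q0 0
  unfold Ps
  rcases sg_cases s with hs | hs <;> rw [hs] <;> constructor <;> linarith

lemma Ps_grid (q0 : ℕ) (lo : V (n + 2)) (s : Bool) : Gd (wd n q0) (cr lo) (Ps q0 lo s) := by
  intro j
  have h := Ps_bd q0 lo s j
  have h5 : (1 : ℤ) ≤ Pool.Agent.H30.HG.rho n q0 0 := by exact_mod_cast Pool.Agent.H30.HG.rho_pos n q0 0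
  unfold cr
  constructor <;> linarith [h.1, h.2]

lemma Ps_gap (q0 : ℕ) (lo : V (n + 2)) (j : Fin (n + 1)) :
    Ps q0 lo false j + 32 * Pool.Agent.H30.HG.rho n q0 0 = Ps q0 lo true j := by
  unfold Ps
  simp only [sg, Bool.false_eq_true, if_false, if_true]
  ring

lemma Ps_ne (q0 : ℕ) (lo : V (n + 2)) : Ps q0 lo false ≠ Ps q0 lo true := by
  intro h
  have h1 := Ps_gap q0 lo 0
  rw [h] at h1
  have h5 : (1 : ℤ) ≤ Pool.Agent.H30.HG.rho n q0 0 := by exact_mod_cast Pool.Agent.H30.HG.rho_pos n q0 0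
  linarith

/-! ### the base box -/

/-- height of the closed base box -/
def hc (n q0 : ℕ) : ℤ := (Pool.Agent.H30.HG.hb n q0 : ℤ) + 8 * Pool.Agent.H30.HG.rho n q0 0

lemma mem_ClB {q0 : ℕ} {lo v : V (n + 2)} : v ∈ Pool.Agent.H30.HG.ClB q0 lo ↔
    (0 ≤ v 0 ∧ v 0 ≤ hc n q0) ∧ ∀ j : Fin (n + 1), lo j.succ ≤ v j.succ ∧ v j.succ < lo j.succ + wd n q0 := by
  unfold Pool.Agent.H30.HG.ClB
  rw [Fintype.mem_piFinset, Fin.forall_fin_succ]
  constructor
  · rintro ⟨h0, h1⟩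
    refine ⟨by simpa [hc] using h0, fun j => ?_⟩
    have hj : (j.succ : Fin (n + 2)) ≠ 0 := Fin.succ_ne_zero j
    have := h1 j
    rw [if_neg hj, Finset.mem_Ico, sd_zero q0 hj] at this
    exact this
  · rintro ⟨h0, h1⟩
    refine ⟨by simpa [hc] using h0, fun j => ?_⟩
    have hj : (j.succ : Fin (n + 2)) ≠ 0 := Fin.succ_ne_zero j
    rw [if_neg hj, Finset.mem_Ico, sd_zero q0 hj]
    exact h1 j

lemma pt_ClB {q0 : ℕ} {lo : V (n + 2)} {h : ℤ} {y : Fin (n + 1) → ℤ} (h0 : 0 ≤ h) (h1 : h ≤ hc n q0)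
    (hy : Gd (wd n q0) (cr lo) y) : pt h y ∈ Pool.Agent.H30.HG.ClB q0 lo :=
  mem_ClB.2 ⟨⟨h0, h1⟩, hy⟩

lemma card_ClB (q0 : ℕ) (lo : V (n + 2)) : 8 * (Pool.Agent.H30.HG.ClB q0 lo).card = Pool.Agent.H30.HG.mB n q0 := by
  unfold Pool.Agent.H30.HG.ClB Pool.Agent.H30.HG.mB
  rw [Fintype.card_piFinset, Fin.prod_univ_succ, if_pos rfl]
  congr 1
  congr 1
  · rw [Int.card_Icc]
    omega
  · have : ∀ j : Fin (n + 1), (if (j.succ : Fin (n + 2)) = 0 then
        Finset.Icc 0 ((Pool.Agent.H30.HG.hb n q0 : ℤ) + 8 * Pool.Agent.H30.HG.rho n q0 0) else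
        Finset.Ico (lo j.succ) (lo j.succ + Pool.Agent.H30.HG.sd n q0 0 j.succ)).card = 2 ^ (q0 + n + 10) := by
      intro j
      have hj : (j.succ : Fin (n + 2)) ≠ 0 := Fin.succ_ne_zero j
      rw [if_neg hj, Int.card_Ico, sd_zero q0 hj, add_sub_cancel_left, Int.toNat_natCast]
      rfl
    rw [Finset.prod_congr rfl fun j _ => this j, Finset.prod_const, Finset.card_univ, Fintype.card_fin]

lemma mem_FlS {q0 : ℕ} {lo a b : V (n + 2)} (ha : a ∈ Pool.Agent.H30.HG.ClB q0 lo)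
    (hb : b ∈ Pool.Agent.H30.HG.ClB q0 lo) (h : 1 ≤ a 0 ∨ 1 ≤ b 0) : s(a, b) ∈ Pool.Agent.H30.HG.FlS q0 lo := by
  classical
  unfold Pool.Agent.H30.HG.FlS
  rw [Finset.mem_filter, Finset.mem_image]
  refine ⟨⟨(a, b), Finset.mem_product.2 ⟨ha, hb⟩, rfl⟩, ?_⟩
  rcases h with h | h
  · exact ⟨a, Sym2.mem_mk_left a b, h⟩
  · exact ⟨b, Sym2.mem_mk_right a b, h⟩

section frame

variable {q0 : ℕ} {lo : V (n + 2)} {σ σ' : El (n + 2) → Bool}

/-- a list in the base box without two consecutive vertices on the face is open -/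
lemma op_base (hFl : ∀ e ∈ Pool.Agent.H30.HG.FlS q0 lo, σ e = true) {l : List (V (n + 2))}
    (hch : l.IsChain LatAdj) (hnd : l.Nodup) (hmem : ∀ v ∈ l, v ∈ Pool.Agent.H30.HG.ClB q0 lo)
    (hp : l.IsChain fun a b => 1 ≤ a 0 ∨ 1 ≤ b 0)
    (hs : κ = .site → ∀ v ∈ l, v 0 < 1 → σ s(v, v) = true) : OP κ σ l := by
  refine ⟨hnd, hch, ?_⟩
  cases κ with
  | bond =>
    show l.IsChain (fun a b => σ s(a, b) = true)
    rw [List.isChain_iff_getElem]
    intro i hi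
    exact hFl _ (mem_FlS (hmem _ (List.getElem_mem _)) (hmem _ (List.getElem_mem _))
      (List.isChain_iff_getElem.1 hp i hi))
  | site =>
    intro v hv
    by_cases h : v 0 < 1
    · exact hs rfl v hv h
    · exact hFl _ (mem_FlS (hmem v hv) (hmem v hv) (Or.inl (by omega)))

lemma len_base {l : List (V (n + 2))} (hnd : l.Nodup) (hmem : ∀ v ∈ l, v ∈ Pool.Agent.H30.HG.ClB q0 lo) :
    l.length ≤ (Pool.Agent.H30.HG.ClB q0 lo).card := by
  classical
  rw [← List.toFinset_card_of_nodup hnd]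
  exact Finset.card_le_card fun v hv => hmem v (List.mem_toFinset.1 hv)

lemma TB_ClB {h₀ h₁ : ℤ} (h0 : 0 ≤ h₀) (h1 : h₁ ≤ hc n q0) {v : V (n + 2)}
    (hv : v ∈ TB (wd n q0) (cr lo) h₀ h₁) : v ∈ Pool.Agent.H30.HG.ClB q0 lo :=
  mem_ClB.2 ⟨⟨h0.trans hv.1, hv.2.1.trans h1⟩, hv.2.2⟩

lemma hb_le_hc (n q0 : ℕ) : (Pool.Agent.H30.HG.hb n q0 : ℤ) ≤ hc n q0 := by
  unfold hc
  have h5 : (1 : ℤ) ≤ Pool.Agent.H30.HG.rho n q0 0 := by exact_mod_cast Pool.Agent.H30.HG.rho_pos n q0 0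
  linarith

/-- a path from height `1` started on the face -/
lemma rw_start (hFl : ∀ e ∈ Pool.Agent.H30.HG.FlS q0 lo, σ e = true) {y : Fin (n + 1) → ℤ}
    (hy : Gd (wd n q0) (cr lo) y) (hs : κ = .site → σ s(pt 0 y, pt 0 y) = true) {z : V (n + 2)}
    {l : List (V (n + 2))} (hl : PL (TB (wd n q0) (cr lo) 1 (Pool.Agent.H30.HG.hb n q0)) (pt 1 y) z l) :
    Rw κ σ (insert (pt 0 y) {v | v ∈ l}) (pt 0 y) z (Pool.Agent.H30.HG.ClB q0 lo).card := by
  have hge : ∀ v ∈ l, 1 ≤ v 0 := fun v hv => (hl.mem v hv).1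
  have hm : ∀ v ∈ pt 0 y :: l, v ∈ Pool.Agent.H30.HG.ClB q0 lo := by
    intro v hv
    rcases List.mem_cons.1 hv with rfl | hv
    · exact pt_ClB le_rfl ((Int.natCast_nonneg _).trans (hb_le_hc n q0)) hy
    · exact TB_ClB (by norm_num) (hb_le_hc n q0) (hl.mem v hv)
  have hnd : (pt 0 y :: l).Nodup := by
    refine List.nodup_cons.2 ⟨fun h => ?_, hl.nodup⟩
    have := hge _ h
    simp at this
  have hch : (pt 0 y :: l).IsChain LatAdj := by
    rw [List.isChain_cons]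
    refine ⟨fun v hv => ?_, hl.chain⟩
    rw [hl.head, Option.mem_some_iff] at hv
    rw [← hv]
    exact latAdj_up 0 y
  have hp : (pt 0 y :: l).IsChain fun a b => 1 ≤ a 0 ∨ 1 ≤ b 0 := by
    rw [List.isChain_iff_getElem]
    intro i hi
    right
    have : (pt 0 y :: l)[i + 1] = l[i]'(by simpa using hi) := by simp
    rw [this]
    exact hge _ (List.getElem_mem _)
  refine ⟨pt 0 y :: l, op_base hFl hch hnd hm hp ?_, rfl, ?_, ?_, ?_⟩
  · intro hκ v hv h
    rcases List.mem_cons.1 hv with rfl | hv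
    · exact hs hκ
    · exact absurd (hge v hv) (by omega)
  · rw [List.getLast?_cons, hl.last]; rfl
  · intro v hv
    rcases List.mem_cons.1 hv with rfl | hv
    · exact Set.mem_insert _ _
    · exact Set.mem_insert_of_mem _ hv
  · have := len_base hnd hm
    omega

/-- a path in the base box with both ends on the face -/
lemma rw_both (hFl : ∀ e ∈ Pool.Agent.H30.HG.FlS q0 lo, σ e = true) {y y' : Fin (n + 1) → ℤ}
    (hy : Gd (wd n q0) (cr lo) y) (hy' : Gd (wd n q0) (cr lo) y') (hne : y ≠ y')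
    (hs : κ = .site → σ s(pt 0 y, pt 0 y) = true) (hs' : κ = .site → σ s(pt 0 y', pt 0 y') = true)
    {l : List (V (n + 2))}
    (hl : PL (TB (wd n q0) (cr lo) 1 (Pool.Agent.H30.HG.hb n q0)) (pt 1 y) (pt 1 y') l) :
    Rw κ σ (insert (pt 0 y) (insert (pt 0 y') (TB (wd n q0) (cr lo) 1 (Pool.Agent.H30.HG.hb n q0))))
      (pt 0 y) (pt 0 y') (Pool.Agent.H30.HG.ClB q0 lo).card := by
  have hge : ∀ v ∈ l, 1 ≤ v 0 := fun v hv => (hl.mem v hv).1
  have hlne : l ≠ [] := by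
    intro h
    have := hl.head
    rw [h] at this
    simp at this
  have hm : ∀ v ∈ pt 0 y :: (l ++ [pt 0 y']), v ∈ Pool.Agent.H30.HG.ClB q0 lo := by
    intro v hv
    rcases List.mem_cons.1 hv with rfl | hv
    · exact pt_ClB le_rfl ((Int.natCast_nonneg _).trans (hb_le_hc n q0)) hy
    · rcases List.mem_append.1 hv with hv | hv
      · exact TB_ClB (by norm_num) (hb_le_hc n q0) (hl.mem v hv)
      · rw [List.mem_singleton] at hv
        rw [hv]
        exact pt_ClB le_rfl ((Int.natCast_nonneg _).trans (hb_le_hc n q0)) hy'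
  have hnd : (pt 0 y :: (l ++ [pt 0 y'])).Nodup := by
    refine List.nodup_cons.2 ⟨fun h => ?_, ?_⟩
    · rcases List.mem_append.1 h with h | h
      · have := hge _ h
        simp at this
      · rw [List.mem_singleton, pt_inj] at h
        exact hne h.2
    · rw [List.nodup_append]
      refine ⟨hl.nodup, List.nodup_singleton _, ?_⟩
      intro a ha b hb hab
      rw [List.mem_singleton] at hb
      have := hge a ha
      rw [hab, hb] at this
      simp at this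
  have hch : (pt 0 y :: (l ++ [pt 0 y'])).IsChain LatAdj := by
    rw [List.isChain_cons]
    refine ⟨fun v hv => ?_, ?_⟩
    · rw [List.head?_append_of_ne_nil _ hlne, hl.head, Option.mem_some_iff] at hv
      rw [← hv]
      exact latAdj_up 0 y
    · rw [List.isChain_append]
      refine ⟨hl.chain, by simp, ?_⟩
      intro a ha b hb
      rw [hl.last, Option.mem_some_iff] at ha
      rw [List.head?_cons, Option.mem_some_iff] at hb
      rw [← ha, ← hb]
      have h1 : LatAdj (pt 0 y') (pt 1 y') := latAdj_up 0 y'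
      exact Split_latAdj_symm h1
  have hp : (pt 0 y :: (l ++ [pt 0 y'])).IsChain fun a b => 1 ≤ a 0 ∨ 1 ≤ b 0 := by
    rw [List.isChain_cons]
    refine ⟨fun v hv => ?_, ?_⟩
    · rw [List.head?_append_of_ne_nil _ hlne] at hv
      exact Or.inr (hge v (List.mem_of_mem_head? hv))
    · rw [List.isChain_append]
      refine ⟨?_, by simp, ?_⟩
      · rw [List.isChain_iff_getElem]
        intro i hi
        exact Or.inl (hge _ (List.getElem_mem _))
      · intro a ha b hb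
        exact Or.inl (hge a (List.mem_of_mem_getLast? ha))
  refine ⟨pt 0 y :: (l ++ [pt 0 y']), op_base hFl hch hnd hm hp ?_, rfl, ?_, ?_, ?_⟩
  · intro hκ v hv h
    rcases List.mem_cons.1 hv with rfl | hv
    · exact hs hκ
    · rcases List.mem_append.1 hv with hv | hv
      · exact absurd (hge v hv) (by omega)
      · rw [List.mem_singleton] at hv
        rw [hv]
        exact hs' hκ
  · rw [List.getLast?_cons, List.getLast?_append]
    rfl
  · intro v hv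
    rcases List.mem_cons.1 hv with rfl | hv
    · exact Set.mem_insert _ _
    · rcases List.mem_append.1 hv with hv | hv
      · exact Set.mem_insert_of_mem _ (Set.mem_insert_of_mem _ (hl.mem v hv))
      · rw [List.mem_singleton] at hv
        rw [hv]
        exact Set.mem_insert_of_mem _ (Set.mem_insert _ _)
  · have := len_base hnd hm
    omega

/-- vertical segment over the token box -/
def VS (q0 : ℕ) (lo : V (n + 2)) (s : Bool) : Set (V (n + 2)) :=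
  {x | ∃ t : ℤ, (Pool.Agent.H30.HG.hb n q0 : ℤ) ≤ t ∧
    t ≤ (Pool.Agent.H30.HG.hb n q0 : ℤ) + 4 * Pool.Agent.H30.HG.rho n q0 0 ∧ x = pt t (Ps q0 lo s)}

/-- region of the lane `s` -/
def LR (q0 : ℕ) (lo : V (n + 2)) (s : Bool) : Set (V (n + 2)) :=
  VS q0 lo s ∪ Pool.Agent.H30.HG.Zr (Pool.Agent.H30.HG.leZ q0 lo s)

/-- vertical paths -/
lemma vert (y : Fin (n + 1) → ℤ) : ∀ (k : ℕ) (h : ℤ), ∃ l : List (V (n + 2)),
    PL {x | ∃ t : ℤ, h ≤ t ∧ t ≤ h + k ∧ x = pt t y} (pt h y) (pt (h + k) y) l := by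
  intro k
  induction k with
  | zero =>
    intro h
    refine ⟨[pt h y], ?_⟩
    simp only [Nat.cast_zero, add_zero]
    exact PL.single ⟨h, le_rfl, le_rfl, rfl⟩
  | succ k ih =>
    intro h
    obtain ⟨l, hl⟩ := ih (h + 1)
    have he : h + ((k + 1 : ℕ) : ℤ) = h + 1 + k := by push_cast; ring
    have h1 : PL {x | ∃ t : ℤ, h ≤ t ∧ t ≤ h + ((k + 1 : ℕ) : ℤ) ∧ x = pt t y} (pt (h + 1) y)
        (pt (h + ((k + 1 : ℕ) : ℤ)) y) l := by
      rw [he]
      apply hl.mono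
      rintro x ⟨t, h1, h2, rfl⟩
      exact ⟨t, by omega, by omega, rfl⟩
    refine ⟨pt h y :: l, h1.cons ⟨h, le_rfl, by omega, rfl⟩ ?_ (latAdj_up h y)⟩
    intro hcon
    obtain ⟨t, h2, -, h4⟩ := hl.mem _ hcon
    rw [pt_inj] at h4
    omega

lemma Ht_zero (n q0 : ℕ) : (Pool.Agent.H30.HG.Ht n q0 0 : ℤ) =
    (Pool.Agent.H30.HG.hb n q0 : ℤ) + 16 * Pool.Agent.H30.HG.rho n q0 0 := by
  have : Pool.Agent.H30.HG.Ht n q0 0 = Pool.Agent.H30.HG.hb n q0 + 16 * Pool.Agent.H30.HG.rho n q0 0 := rfl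
  rw [this]
  push_cast
  ring

lemma mem_leZ {s : Bool} {q : V (n + 2) × ℕ} : q ∈ Pool.Agent.H30.HG.leZ q0 lo s ↔ ∃ t : ℤ,
    (Pool.Agent.H30.HG.hb n q0 : ℤ) + 4 * Pool.Agent.H30.HG.rho n q0 0 ≤ t ∧
      t ≤ (Pool.Agent.H30.HG.hb n q0 : ℤ) + 16 * Pool.Agent.H30.HG.rho n q0 0 ∧
      q = (pt t (Ps q0 lo s), Pool.Agent.H30.HG.rho n q0 0) := by
  classical
  have h5 : (1 : ℤ) ≤ Pool.Agent.H30.HG.rho n q0 0 := by exact_mod_cast Pool.Agent.H30.HG.rho_pos n q0 0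
  unfold Pool.Agent.H30.HG.leZ Pool.Agent.H30.HG.im
  rw [ln_eq, Po_eq, Ht_zero, Finset.mem_image]
  unfold Pool.Agent.H30.HG.St
  constructor
  · rintro ⟨z, hz, rfl⟩
    rw [Finset.mem_biUnion] at hz
    obtain ⟨k, -, hz⟩ := hz
    rw [Finset.mem_image] at hz
    obtain ⟨t, ht, rfl⟩ := hz
    rw [Finset.mem_Icc] at ht
    revert ht
    refine Fin.cases ?_ (fun j => ?_) k
    · intro ht
      rw [pt_zero, pt_zero] at ht
      refine ⟨t, ?_, ?_, ?_⟩
      · have := ht.1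
        rw [min_eq_left (by linarith)] at this
        exact this
      · have := ht.2
        rw [max_eq_right (by linarith)] at this
        exact this
      · congr 1
        funext m
        refine Fin.cases ?_ (fun j => ?_) m
        · simp
        · simp [Fin.succ_ne_zero]
    · intro ht
      rw [pt_succ, pt_succ, min_self, max_self] at ht
      have ht' : t = Ps q0 lo s j := le_antisymm ht.2 ht.1
      refine ⟨_, by linarith, le_rfl, ?_⟩
      congr 1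
      funext m
      refine Fin.cases ?_ (fun j' => ?_) m
      · simp [Fin.succ_pos]
      · by_cases h : j' = j
        · subst h
          simp [ht']
        · have h' : (j'.succ : Fin (n + 2)) ≠ j.succ := fun e => h (Fin.succ_inj.1 e)
          simp only [if_neg h', pt_succ, ite_self]
  · rintro ⟨t, h1, h2, rfl⟩
    refine ⟨pt t (Ps q0 lo s), ?_, rfl⟩
    rw [Finset.mem_biUnion]
    refine ⟨0, Finset.mem_univ _, ?_⟩
    rw [Finset.mem_image]
    refine ⟨t, ?_, ?_⟩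
    · rw [Finset.mem_Icc, pt_zero, pt_zero, min_eq_left (by linarith), max_eq_right (by linarith)]
      exact ⟨h1, h2⟩
    · funext m
      refine Fin.cases ?_ (fun j => ?_) m
      · simp
      · simp [Fin.succ_ne_zero]

lemma mem_Zr {s : Bool} {v : V (n + 2)} (hv : v ∈ Pool.Agent.H30.HG.Zr (Pool.Agent.H30.HG.leZ q0 lo s)) :
    ((Pool.Agent.H30.HG.hb n q0 : ℤ) + 3 * Pool.Agent.H30.HG.rho n q0 0 ≤ v 0 ∧
      v 0 ≤ (Pool.Agent.H30.HG.hb n q0 : ℤ) + 17 * Pool.Agent.H30.HG.rho n q0 0) ∧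
    ∀ j : Fin (n + 1), Ps q0 lo s j - Pool.Agent.H30.HG.rho n q0 0 ≤ v j.succ ∧
      v j.succ ≤ Ps q0 lo s j + Pool.Agent.H30.HG.rho n q0 0 := by
  obtain ⟨q, hq, hv⟩ := hv
  obtain ⟨t, h1, h2, rfl⟩ := mem_leZ.1 hq
  rw [mem_Bx] at hv
  dsimp only at hv
  have h0 := abs_le.1 (hv 0)
  rw [pt_zero] at h0
  refine ⟨⟨by linarith [h0.1], by linarith [h0.2]⟩, fun j => ?_⟩
  have hj := abs_le.1 (hv j.succ)
  rw [pt_succ] at hj
  constructor <;> linarith [hj.1, hj.2]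

lemma mem_regS {v : V (n + 2)} : v ∈ Pool.Agent.H30.HG.regS q0 0 lo ↔
    (1 ≤ v 0 ∧ v 0 ≤ (Pool.Agent.H30.HG.hb n q0 : ℤ) + 18 * Pool.Agent.H30.HG.rho n q0 0) ∧
    ∀ j : Fin (n + 1), lo j.succ ≤ v j.succ ∧ v j.succ < lo j.succ + wd n q0 := by
  have e : v ∈ Pool.Agent.H30.HG.regS q0 0 lo ↔ (1 ≤ v 0 ∧ ∀ k : Fin (n + 2), k ≠ 0 → lo k ≤ v k ∧
      v k < lo k + Pool.Agent.H30.HG.sd n q0 0 k) ∧
      v 0 ≤ (Pool.Agent.H30.HG.Ht n q0 0 : ℤ) + 2 * Pool.Agent.H30.HG.rho n q0 0 := Iff.rfl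
  rw [e, Ht_zero]
  constructor
  · rintro ⟨⟨h1, h2⟩, h3⟩
    refine ⟨⟨h1, by linarith⟩, fun j => ?_⟩
    have := h2 j.succ (Fin.succ_ne_zero j)
    rw [sd_zero q0 (Fin.succ_ne_zero j)] at this
    exact this
  · rintro ⟨⟨h1, h3⟩, h2⟩
    refine ⟨⟨h1, fun k hk => ?_⟩, by linarith⟩
    obtain ⟨j, rfl⟩ := Fin.exists_succ_eq.2 hk
    rw [sd_zero q0 hk]
    exact h2 j

lemma hb_pos (n q0 : ℕ) : (1 : ℤ) ≤ Pool.Agent.H30.HG.hb n q0 := by
  exact_mod_cast HT_pos n (2 ^ (q0 + n + 10))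

lemma LR_bd {s : Bool} {v : V (n + 2)} (hv : v ∈ LR q0 lo s) :
    ((Pool.Agent.H30.HG.hb n q0 : ℤ) ≤ v 0 ∧
      v 0 ≤ (Pool.Agent.H30.HG.hb n q0 : ℤ) + 17 * Pool.Agent.H30.HG.rho n q0 0) ∧
    (∀ j : Fin (n + 1), Ps q0 lo s j - Pool.Agent.H30.HG.rho n q0 0 ≤ v j.succ ∧
      v j.succ ≤ Ps q0 lo s j + Pool.Agent.H30.HG.rho n q0 0) ∧
    (v 0 ≤ (Pool.Agent.H30.HG.hb n q0 : ℤ) → v = pt (Pool.Agent.H30.HG.hb n q0 : ℤ) (Ps q0 lo s)) := by
  have h5 : (1 : ℤ) ≤ Pool.Agent.H30.HG.rho n q0 0 := by exact_mod_cast Pool.Agent.H30.HG.rho_pos n q0 0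
  rcases hv with ⟨t, h1, h2, rfl⟩ | hv
  · refine ⟨⟨by simpa using h1, ?_⟩, fun j => ?_, fun h => ?_⟩
    · rw [pt_zero]; linarith
    · rw [pt_succ]; constructor <;> linarith
    · rw [pt_zero] at h
      rw [le_antisymm h h1]
  · obtain ⟨⟨h1, h2⟩, h3⟩ := mem_Zr hv
    exact ⟨⟨by linarith, h2⟩, h3, fun h => absurd h (by linarith)⟩

lemma LR_regS {s : Bool} : LR q0 lo s ⊆ Pool.Agent.H30.HG.regS q0 0 lo := by
  intro v hv
  have h5 : (1 : ℤ) ≤ Pool.Agent.H30.HG.rho n q0 0 := by exact_mod_cast Pool.Agent.H30.HG.rho_pos n q0 0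
  obtain ⟨⟨h1, h2⟩, h3, -⟩ := LR_bd hv
  refine mem_regS.2 ⟨⟨(hb_pos n q0).trans h1, by linarith⟩, fun j => ?_⟩
  have hb := Ps_bd q0 lo s j
  have := h3 j
  constructor <;> linarith [this.1, this.2, hb.1, hb.2]

lemma TB_regS {v : V (n + 2)} (hv : v ∈ TB (wd n q0) (cr lo) 1 (Pool.Agent.H30.HG.hb n q0)) :
    v ∈ Pool.Agent.H30.HG.regS q0 0 lo := by
  have h5 : (1 : ℤ) ≤ Pool.Agent.H30.HG.rho n q0 0 := by exact_mod_cast Pool.Agent.H30.HG.rho_pos n q0 0
  exact mem_regS.2 ⟨⟨hv.1, by linarith [hv.2.1]⟩, hv.2.2⟩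

/-- from the top of the token box to the port -/
lemma rw_lane (RS : RoadSys κ (n + 2) p) (hFl : ∀ e ∈ Pool.Agent.H30.HG.FlS q0 lo, σ e = true)
    {s : Bool} (hreg : ∀ q ∈ Pool.Agent.H30.HG.leZ q0 lo s, σ' ∈ RS.reg q.1 q.2)
    (hom : ∀ e ∈ InE (Pool.Agent.H30.HG.regS q0 0 lo), σ' e = true → σ e = true) :
    Rw κ σ (LR q0 lo s) (pt (Pool.Agent.H30.HG.hb n q0 : ℤ) (Ps q0 lo s))
      (RS.hub (Pool.Agent.H30.HG.ln q0 0 lo s) (Pool.Agent.H30.HG.rho n q0 0) σ')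
      ((Pool.Agent.H30.HG.ClB q0 lo).card + (Pool.Agent.H30.HG.ClB q0 lo).card +
        ∑ q ∈ Pool.Agent.H30.HG.leZ q0 lo s, RS.lam q.1 q.2 σ') := by
  classical
  have h5 : (1 : ℤ) ≤ Pool.Agent.H30.HG.rho n q0 0 := by exact_mod_cast Pool.Agent.H30.HG.rho_pos n q0 0
  set H : ℤ := (Pool.Agent.H30.HG.hb n q0 : ℤ) with hH
  set ρ : ℕ := Pool.Agent.H30.HG.rho n q0 0 with hρ
  have hHp : 1 ≤ H := hb_pos n q0
  have hhc : hc n q0 = H + 8 * ρ := rfl
  set z : V (n + 2) := pt (H + 4 * ρ) (Ps q0 lo s) with hz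
  -- the vertical segment
  have e1 : Rw κ σ (VS q0 lo s) (pt H (Ps q0 lo s)) z (Pool.Agent.H30.HG.ClB q0 lo).card := by
    obtain ⟨l, hl⟩ := vert (Ps q0 lo s) (4 * ρ) H
    have ht : H + ((4 * ρ : ℕ) : ℤ) = H + 4 * ρ := by push_cast; ring
    rw [ht] at hl
    have hge : ∀ v ∈ l, 1 ≤ v 0 := by
      intro v hv
      obtain ⟨t, h1, -, rfl⟩ := hl.mem v hv
      rw [pt_zero]; linarith
    have hm : ∀ v ∈ l, v ∈ Pool.Agent.H30.HG.ClB q0 lo := by
      intro v hv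
      obtain ⟨t, h1, h2, rfl⟩ := hl.mem v hv
      exact pt_ClB (by linarith) (by rw [hhc]; linarith) (Ps_grid q0 lo s)
    refine ⟨l, op_base hFl hl.chain hl.nodup hm ?_ ?_, hl.head, hl.last, ?_, ?_⟩
    · rw [List.isChain_iff_getElem]
      intro i hi
      exact Or.inl (hge _ (List.getElem_mem _))
    · intro _ v hv h
      exact absurd (hge v hv) (by omega)
    · intro v hv
      exact hl.mem v hv
    · have := len_base hl.nodup hm
      omega
  -- the ball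
  have hzm : (z, ρ) ∈ Pool.Agent.H30.HG.leZ q0 lo s := mem_leZ.2 ⟨H + 4 * ρ, le_rfl, by linarith, rfl⟩
  have hzr := hreg _ hzm
  have hball : ∀ v ∈ Bx z ρ, v ∈ Pool.Agent.H30.HG.ClB q0 lo ∧ 1 ≤ v 0 := by
    intro v hv
    rw [mem_Bx] at hv
    have h0 := abs_le.1 (hv 0)
    rw [hz, pt_zero] at h0
    refine ⟨mem_ClB.2 ⟨⟨by linarith [h0.1], by rw [hhc]; linarith [h0.2]⟩, fun j => ?_⟩, by linarith [h0.1]⟩
    have hj := abs_le.1 (hv j.succ)
    rw [hz, pt_succ] at hj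
    have hb := Ps_bd q0 lo s j
    rw [← hρ] at hb
    constructor <;> linarith [hj.1, hj.2, hb.1, hb.2]
  have e2 : Rw κ σ (Bx z ρ : Set (V (n + 2))) z (RS.hub z ρ σ') (Pool.Agent.H30.HG.ClB q0 lo).card := by
    have hopen : ∀ e ∈ InE (Bx z ρ : Set (V (n + 2))), σ e = true := by
      intro e
      refine Sym2.ind (fun a b => ?_) e
      intro he
      have ha := hball a (he a (Sym2.mem_mk_left a b))
      have hb := hball b (he b (Sym2.mem_mk_right a b))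
      exact hFl _ (mem_FlS ha.1 hb.1 (Or.inl ha.2))
    have h := rw_box (κ := κ) (ω := σ) hopen (x := z) (y := RS.hub z ρ σ') (by
      rw [mem_Bx]
      intro k
      simp) (RS.hub_mem _ _ _ hzr)
    exact rw_mono (fun _ h => h) (fun _ h => h) (Finset.card_le_card fun v hv => (hball v hv).1) h
  -- the road
  have e3 : Rw κ σ (Pool.Agent.H30.HG.Zr (Pool.Agent.H30.HG.leZ q0 lo s)) (RS.hub z ρ σ')
      (RS.hub (Pool.Agent.H30.HG.ln q0 0 lo s) ρ σ')
      (∑ q ∈ Pool.Agent.H30.HG.leZ q0 lo s, RS.lam q.1 q.2 σ') := by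
    obtain ⟨l, hl⟩ := vert (Ps q0 lo s) (12 * ρ) (H + 4 * ρ)
    have ht : H + 4 * ρ + ((12 * ρ : ℕ) : ℤ) = H + 16 * ρ := by push_cast; ring
    rw [ht] at hl
    have hmem : ∀ q ∈ Pool.Agent.H74.HG.wire (fun _ => ρ) l, q ∈ Pool.Agent.H30.HG.leZ q0 lo s := by
      intro q hq
      obtain ⟨h1, h2⟩ := Pool.Agent.H74.HG.mem_wire.1 hq
      obtain ⟨t, h3, h4, h6⟩ := hl.mem _ h1
      refine mem_leZ.2 ⟨t, h3, h4, ?_⟩
      exact Prod.ext h6 h2
    have hroad := Pool.Agent.H74.HG.road_of_wire RS (ω := σ')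
      (Pool.Agent.H74.HG.wire_chain (r := fun _ => ρ) hl.chain
        (fun _ _ _ _ _ => ⟨by omega, by omega⟩))
      (fun q hq => ⟨by
          have := (Pool.Agent.H74.HG.mem_wire.1 hq).2
          rw [this]
          exact Pool.Agent.H30.HG.rho_pos n q0 0, hreg q (hmem q hq)⟩)
      (Pool.Agent.H74.HG.wire_head hl.head) (Pool.Agent.H74.HG.wire_last hl.last)
    have h6 : Rw κ σ' (Pool.Agent.H30.HG.Zr (Pool.Agent.H30.HG.leZ q0 lo s)) (RS.hub z ρ σ')
        (RS.hub (Pool.Agent.H30.HG.ln q0 0 lo s) ρ σ')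
        (∑ q ∈ Pool.Agent.H30.HG.leZ q0 lo s, RS.lam q.1 q.2 σ') := by
      rw [ln_eq, Ht_zero]
      refine rw_mono (fun _ h => h) ?_ ?_ hroad
      · rintro v ⟨q, hq, hv⟩
        exact ⟨q, hmem q hq, hv⟩
      · exact Finset.sum_le_sum_of_subset fun q hq => hmem q (List.mem_toFinset.1 hq)
    refine rw_congr ?_ h6
    intro e he
    exact hom e fun v hv => LR_regS (Or.inr (he v hv))
  have s1 : VS q0 lo s ⊆ LR q0 lo s := Set.subset_union_left
  have s2 : (Bx z ρ : Set (V (n + 2))) ⊆ LR q0 lo s := fun v hv => Or.inr ⟨_, hzm, hv⟩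
  have s3 : Pool.Agent.H30.HG.Zr (Pool.Agent.H30.HG.leZ q0 lo s) ⊆ LR q0 lo s := Set.subset_union_right
  exact rw_trans (rw_trans (rw_mono (fun _ h => h) s1 le_rfl e1) (rw_mono (fun _ h => h) s2 le_rfl e2))
    (rw_mono (fun _ h => h) s3 le_rfl e3)

/-- region of one token: the vertex on the face, the path `l` in the token box, the lane -/
def UR (q0 : ℕ) (lo : V (n + 2)) (s : Bool) (y : Fin (n + 1) → ℤ) (l : List (V (n + 2))) :
    Set (V (n + 2)) := insert (pt 0 y) ({v | v ∈ l} ∪ LR q0 lo s)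

/-- from the face to the port -/
lemma rw_token (RS : RoadSys κ (n + 2) p) (hFl : ∀ e ∈ Pool.Agent.H30.HG.FlS q0 lo, σ e = true)
    {s : Bool} (hreg : ∀ q ∈ Pool.Agent.H30.HG.leZ q0 lo s, σ' ∈ RS.reg q.1 q.2)
    (hom : ∀ e ∈ InE (Pool.Agent.H30.HG.regS q0 0 lo), σ' e = true → σ e = true)
    {y : Fin (n + 1) → ℤ} (hy : Gd (wd n q0) (cr lo) y) (hs : κ = .site → σ s(pt 0 y, pt 0 y) = true)
    {l : List (V (n + 2))} (hl : PL (TB (wd n q0) (cr lo) 1 (Pool.Agent.H30.HG.hb n q0)) (pt 1 y)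
      (pt (Pool.Agent.H30.HG.hb n q0 : ℤ) (Ps q0 lo s)) l) :
    Rw κ σ (UR q0 lo s y l) (pt 0 y) (RS.hub (Pool.Agent.H30.HG.ln q0 0 lo s) (Pool.Agent.H30.HG.rho n q0 0) σ')
      (Pool.Agent.H30.HG.mB n q0 + ∑ q ∈ Pool.Agent.H30.HG.leZ q0 lo s, RS.lam q.1 q.2 σ') := by
  have h1 := rw_start hFl hy hs hl
  have h2 := rw_lane RS hFl hreg hom
  have s1 : insert (pt 0 y) {v | v ∈ l} ⊆ UR q0 lo s y l :=
    Set.insert_subset_insert Set.subset_union_left
  have s2 : LR q0 lo s ⊆ UR q0 lo s y l := fun v hv => Set.mem_insert_of_mem _ (Or.inr hv)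
  have h3 := rw_trans (rw_mono (fun _ h => h) s1 le_rfl h1) (rw_mono (fun _ h => h) s2 le_rfl h2)
  refine rw_mono (fun _ h => h) (fun _ h => h) ?_ h3
  have := card_ClB q0 lo
  omega

lemma UR_reg {s : Bool} {y : Fin (n + 1) → ℤ} {l : List (V (n + 2))}
    (hl : ∀ v ∈ l, v ∈ TB (wd n q0) (cr lo) 1 (Pool.Agent.H30.HG.hb n q0)) :
    UR q0 lo s y l ⊆ insert (pt 0 y) (Pool.Agent.H30.HG.regS q0 0 lo) := by
  rintro v (rfl | hv | hv)
  · exact Set.mem_insert _ _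
  · exact Set.mem_insert_of_mem _ (TB_regS (hl v hv))
  · exact Set.mem_insert_of_mem _ (LR_regS hv)

lemma jj_zero (n : ℕ) : Pool.Agent.H30.HG.jj n 0 = (0 : Fin (n + 1)).succ := by
  apply Fin.ext
  simp [Pool.Agent.H30.HG.jj]

/-- the region of a token avoids the zone of the other lane -/
lemma UR_zone {s : Bool} {y : Fin (n + 1) → ℤ} {l : List (V (n + 2))}
    (hl : ∀ v ∈ l, v ∈ TB (wd n q0) (cr lo) 1 (Pool.Agent.H30.HG.hb n q0)) :
    Disjoint (UR q0 lo s y l) (Pool.Agent.H30.HG.zoneS q0 0 lo (!s)) := by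
  have h5 : (1 : ℤ) ≤ Pool.Agent.H30.HG.rho n q0 0 := by exact_mod_cast Pool.Agent.H30.HG.rho_pos n q0 0
  rw [Set.disjoint_left]
  rintro v hv ⟨⟨hz0, -⟩, hz1, -, hz3⟩
  rw [Ht_zero] at hz1
  rcases hv with rfl | hv | hv
  · rw [pt_zero] at hz0
    omega
  · have := (hl v hv).2.1
    linarith
  · obtain ⟨-, h3, -⟩ := LR_bd hv
    have h4 := h3 0
    rw [jj_zero, sd_zero q0 (Fin.succ_ne_zero 0)] at hz3
    unfold Ps at h4
    cases s
    · simp only [sg, Bool.not_false, if_true, Bool.false_eq_true, if_false] at hz3 h4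
      linarith [h4.2]
    · simp only [sg, Bool.not_true, if_true, Bool.false_eq_true, if_false] at hz3 h4
      linarith [h4.1]

/-- regions of two tokens are disjoint -/
lemma UR_disj {s : Bool} {y y' : Fin (n + 1) → ℤ} (hne : y ≠ y') {l l' : List (V (n + 2))}
    (hl : PL (TB (wd n q0) (cr lo) 1 (Pool.Agent.H30.HG.hb n q0)) (pt 1 y)
      (pt (Pool.Agent.H30.HG.hb n q0 : ℤ) (Ps q0 lo s)) l)
    (hl' : PL (TB (wd n q0) (cr lo) 1 (Pool.Agent.H30.HG.hb n q0)) (pt 1 y')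
      (pt (Pool.Agent.H30.HG.hb n q0 : ℤ) (Ps q0 lo (!s))) l') (hd : l.Disjoint l') :
    Disjoint (UR q0 lo s y l) (UR q0 lo (!s) y' l') := by
  have h5 : (1 : ℤ) ≤ Pool.Agent.H30.HG.rho n q0 0 := by exact_mod_cast Pool.Agent.H30.HG.rho_pos n q0 0
  have hb1 := hb_pos n q0
  rw [Set.disjoint_left]
  rintro v (rfl | hv | hv) (hv' | hv' | hv')
  · exact hne (pt_inj.1 hv').2
  · have := (hl'.mem _ hv').1
    simp at this
  · have := (LR_bd hv').1.1
    rw [pt_zero] at this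
    omega
  · rw [hv'] at hv
    have := (hl.mem _ hv).1
    simp at this
  · exact hd hv hv'
  · have h1 := (LR_bd hv').2.2 (hl.mem v hv).2.1
    rw [h1] at hv
    exact hd hv (List.mem_of_getLast? hl'.last)
  · rw [hv'] at hv
    have := (LR_bd hv).1.1
    rw [pt_zero] at this
    omega
  · have h1 := (LR_bd hv).2.2 (hl'.mem v hv').2.1
    rw [h1] at hv'
    exact hd (List.mem_of_getLast? hl.last) hv'
  · have h1 := (LR_bd hv).2.1 0
    have h2 := (LR_bd hv').2.1 0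
    have h3 := Ps_gap q0 lo 0
    cases s
    · rw [Bool.not_false] at h2
      linarith [h1.2, h2.1]
    · rw [Bool.not_true] at h2
      linarith [h1.1, h2.2]

end frame

/-! ### the statement in actual coordinates -/

open Pool.Agent.H30.HG (X geo KK regS zoneS InN FlS TN leZ ln rho mB)

/-- LEAF: the geometry in a base cell `(0, lo)` over the face `F` -/
theorem leaf_ok (RS : RoadSys κ (n + 2) p) {q0 i : ℕ} {a : V (n + 2)} {F : Face n} {lo : V (n + 2)}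
    {ω ω' : El (n + 2) → Bool} {Q : Set (V (n + 2))} {D : TData (n + 2)} {J : Finset (Fin D.k)}
    {ce : En D → X n} (hD : TOK Q D) (hF : (TFam κ ω Q D).Nonempty)
    (hpos : ∀ e : En D, e.1 ∈ J → ce e = (F, (0, lo)) → ∃ v, InN q0 0 lo v ∧ fr i a F v = pe D e)
    (hFl : ∀ e ∈ FlS q0 lo, ω (e.map (fr i a F)) = true)
    (hreg : ∀ q ∈ TN q0 0 lo, tr (fr i a F) ω' ∈ RS.reg q.1 q.2)
    (hom : ∀ e ∈ InE (fr i a F '' regS q0 0 lo), ω' e = true → ω e = true) :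
    LeafOK κ ω D J (geo RS q0 i a ω') ce (F, (0, lo)) (mB n q0 + KK RS q0 i a ω' (F, (0, lo))) := by
  classical
  set φ := fr i a F with hφ
  have haut : IsAut φ := isAut_fr i a F
  set σ : El (n + 2) → Bool := tr φ ω with hσ
  set σ' : El (n + 2) → Bool := tr φ ω' with hσ'
  have hFl' : ∀ e ∈ FlS q0 lo, σ e = true := hFl
  have hom' : ∀ e ∈ InE (regS q0 0 lo), σ' e = true → σ e = true := by
    intro e he h
    refine hom _ ?_ h
    intro v hv
    rw [Sym2.mem_map] at hv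
    obtain ⟨u, hu, rfl⟩ := hv
    exact ⟨u, he u hu, rfl⟩
  have hTN : TN q0 0 lo = leZ q0 lo false ∪ leZ q0 lo true := rfl
  have hregs : ∀ s, ∀ q ∈ leZ q0 lo s, σ' ∈ RS.reg q.1 q.2 := by
    intro s q hq
    apply hreg
    rw [hTN]
    cases s
    · exact Finset.mem_union_left _ hq
    · exact Finset.mem_union_right _ hq
  have hcost : ∀ s, ∑ q ∈ leZ q0 lo s, RS.lam q.1 q.2 σ' ≤ KK RS q0 i a ω' (F, (0, lo)) := by
    intro s
    show _ ≤ ∑ q ∈ TN q0 0 lo, RS.lam q.1 q.2 σ'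
    apply Finset.sum_le_sum_of_subset
    rw [hTN]
    cases s
    · exact Finset.subset_union_left
    · exact Finset.subset_union_right
  -- positions
  have hp : ∀ e : En D, e.1 ∈ J → ce e = (F, (0, lo)) →
      ∃ y, Gd (wd n q0) (cr lo) y ∧ φ (pt 0 y) = pe D e ∧ (κ = .site → σ s(pt 0 y, pt 0 y) = true) := by
    intro e he hce
    obtain ⟨v, ⟨hv0, hv1⟩, hv2⟩ := hpos e he hce
    have hv : v = pt 0 (fun j => v j.succ) := by
      funext k
      refine Fin.cases ?_ (fun j => ?_) k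
      · rw [pt_zero, hv0]
      · rw [pt_succ]
    refine ⟨fun j => v j.succ, fun j => ?_, by rw [← hv]; exact hv2, fun hκ => ?_⟩
    · have := hv1 j.succ (Fin.succ_ne_zero j)
      rw [sd_zero q0 (Fin.succ_ne_zero j)] at this
      exact this
    · rw [← hv]
      show ω ((s(v, v) : El (n + 2)).map φ) = true
      rw [Sym2.map_mk]
      obtain ⟨w, hw⟩ := hF
      have h1 := RwP_mem hw e
      have h2 := (hw.1 e.1).1.opn
      subst hκ
      have h3 := h2 _ h1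
      show ω s(φ v, φ v) = true
      rw [hv2]
      exact h3
  have himg : ∀ y : Fin (n + 1) → ℤ, φ '' insert (pt 0 y) (regS q0 0 lo) =
      insert (φ (pt 0 y)) ((geo RS q0 i a ω').reg (F, (0, lo))) := by
    intro y
    rw [Set.image_insert_eq]
    rfl
  -- one token
  have key : ∀ (s : Bool) (y : Fin (n + 1) → ℤ) (l : List (V (n + 2))), Gd (wd n q0) (cr lo) y →
      (κ = .site → σ s(pt 0 y, pt 0 y) = true) →
      PL (TB (wd n q0) (cr lo) 1 (Pool.Agent.H30.HG.hb n q0)) (pt 1 y)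
        (pt (Pool.Agent.H30.HG.hb n q0 : ℤ) (Ps q0 lo s)) l →
      Rw κ ω (φ '' UR q0 lo s y l) (φ (pt 0 y)) ((geo RS q0 i a ω').hub (F, (0, lo)) s)
        (mB n q0 + KK RS q0 i a ω' (F, (0, lo))) ∧
      φ '' UR q0 lo s y l ⊆ insert (φ (pt 0 y)) ((geo RS q0 i a ω').reg (F, (0, lo))) := by
    intro s y l hy hs hl
    refine ⟨?_, ?_⟩
    · have h1 := rw_tr haut (rw_token RS hFl' (hregs s) hom' hy hs hl)
      refine rw_mono (fun _ h => h) (fun _ h => h) ?_ h1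
      have := hcost s
      omega
    · rw [← himg]
      exact Set.image_mono (UR_reg hl.mem)
  refine ⟨?_, ?_, ?_⟩
  · intro e he hce
    obtain ⟨y, hy, hye, hys⟩ := hp e he hce
    obtain ⟨l, hl⟩ := token_one (wd n q0) (cr lo) (Ps_grid q0 lo false) hy
    have := key false y l hy hys hl
    rw [hye] at this
    exact ⟨_, this.1, this.2⟩
  · intro e f he hf hce hcf hef
    obtain ⟨y, hy, hye, hys⟩ := hp e he hce
    obtain ⟨y', hy', hye', hys'⟩ := hp f hf hcf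
    have hne : y ≠ y' := by
      rintro rfl
      exact hef (pe_inj hD hF (hye.symm.trans hye'))
    have hw2 : 2 ≤ wd n q0 := by
      unfold wd
      calc 2 = 2 ^ 1 := by norm_num
        _ ≤ 2 ^ (q0 + n + 10) := Nat.pow_le_pow_right (by norm_num) (by omega)
    obtain ⟨l, l', hd, h | h⟩ := token (wd n q0) hw2 (cr lo) (Ps_grid q0 lo false) (Ps_grid q0 lo true)
      (Ps_ne q0 lo) hy hy' hne
    · obtain ⟨hl, hl'⟩ := h
      have k1 := key false y l hy hys hl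
      have k2 := key true y' l' hy' hys' hl'
      rw [hye] at k1
      rw [hye'] at k2
      refine ⟨e, f, Or.inl ⟨rfl, rfl⟩, _, _, k1.1, k2.1, k1.2, k2.2, ?_, ?_, ?_⟩
      · exact (Set.disjoint_image_iff φ.injective).2 (UR_disj hne hl hl' hd)
      · exact (Set.disjoint_image_iff φ.injective).2 (UR_zone (s := false) hl.mem)
      · exact (Set.disjoint_image_iff φ.injective).2 (UR_zone (s := true) hl'.mem)
    · obtain ⟨hl, hl'⟩ := h
      have k1 := key true y l hy hys hl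
      have k2 := key false y' l' hy' hys' hl'
      rw [hye] at k1
      rw [hye'] at k2
      refine ⟨f, e, Or.inr ⟨rfl, rfl⟩, _, _, k2.1, k1.1, k2.2, k1.2, ?_, ?_, ?_⟩
      · exact (Set.disjoint_image_iff φ.injective).2 (UR_disj (Ne.symm hne) hl' hl hd.symm)
      · exact (Set.disjoint_image_iff φ.injective).2 (UR_zone (s := false) hl'.mem)
      · exact (Set.disjoint_image_iff φ.injective).2 (UR_zone (s := true) hl.mem)
  · intro e f he hf hce hcf hef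
    obtain ⟨y, hy, hye, hys⟩ := hp e he hce
    obtain ⟨y', hy', hye', hys'⟩ := hp f hf hcf
    have hne : y ≠ y' := by
      rintro rfl
      exact hef (pe_inj hD hF (hye.symm.trans hye'))
    obtain ⟨l, hl⟩ := token_join (wd n q0) (cr lo) hy hy'
    have h1 := rw_tr haut (rw_both (κ := κ) hFl' hy hy' hne hys hys' hl)
    rw [hye, hye'] at h1
    refine ⟨_, rw_mono (fun _ h => h) (fun _ h => h) ?_ h1, ?_⟩
    · have := card_ClB q0 lo
      omega
    · rintro _ ⟨v, hv, rfl⟩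
      rcases hv with rfl | rfl | hv
      · rw [← hye]
        exact Set.mem_insert _ _
      · rw [← hye']
        exact Set.mem_insert_of_mem _ (Set.mem_insert _ _)
      · exact Set.mem_insert_of_mem _ (Set.mem_insert_of_mem _ ⟨v, TB_regS hv, rfl⟩)

end Pool.Agent.H42.HG
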