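import Pool.Agent.H41.QC.Defs

/-!
# TOKEN (section 3 of the design notes of `QA/HookGeo`)

Lateral grid `{y | c j ≤ y j < c j + w}`, `j : Fin (n + 1)`, heights `1, …, HT n w`. Two distinct tokens at
height `1` can be moved along disjoint paths to two prescribed distinct positions at height `HT n w`
(in one of the two orders). One move of one token per level of height; the token graph (unordered pairs of
distinct grid points) is connected: every pair can be decreased to `{c, c + e_i}`, then moved to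
`{c, c + e_0}`.
-/

namespace Pool.Agent.H42.HG

open Pool.Agent.H41.QC

variable {n : ℕ}

/-- the vertex of height `h` above the lateral position `y` -/
def pt (h : ℤ) (y : Fin (n + 1) → ℤ) : V (n + 2) := Fin.cons h y

@[simp] lemma pt_zero (h : ℤ) (y : Fin (n + 1) → ℤ) : pt h y 0 = h := rfl

@[simp] lemma pt_succ (h : ℤ) (y : Fin (n + 1) → ℤ) (j : Fin (n + 1)) : pt h y j.succ = y j := rfl

lemma pt_inj {h h' : ℤ} {y y' : Fin (n + 1) → ℤ} : pt h y = pt h' y' ↔ h = h' ∧ y = y' := by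
  unfold pt
  constructor
  · intro e
    exact ⟨by simpa using congrFun e 0, by funext j; simpa using congrFun e j.succ⟩
  · rintro ⟨rfl, rfl⟩; rfl

/-- the lateral grid with corner `c` and side `w` -/
def Gd (w : ℕ) (c y : Fin (n + 1) → ℤ) : Prop := ∀ j, c j ≤ y j ∧ y j < c j + w

/-- the box above the grid with heights `h₀, …, h₁` -/
def TB (w : ℕ) (c : Fin (n + 1) → ℤ) (h₀ h₁ : ℤ) : Set (V (n + 2)) :=
  {x | h₀ ≤ x 0 ∧ x 0 ≤ h₁ ∧ ∀ j : Fin (n + 1), c j ≤ x j.succ ∧ x j.succ < c j + w}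

lemma pt_mem_TB {w : ℕ} {c y : Fin (n + 1) → ℤ} {h h₀ h₁ : ℤ} :
    pt h y ∈ TB w c h₀ h₁ ↔ h₀ ≤ h ∧ h ≤ h₁ ∧ Gd w c y := by
  simp [TB, Gd]

lemma TB_mono {w : ℕ} {c : Fin (n + 1) → ℤ} {h₀ h₁ k₀ k₁ : ℤ} (h0 : k₀ ≤ h₀) (h1 : h₁ ≤ k₁) :
    TB w c h₀ h₁ ⊆ TB w c k₀ k₁ := fun _ hx => ⟨h0.trans hx.1, hx.2.1.trans h1, hx.2.2⟩

/-- lateral neighbours -/
def Adj1 (y y' : Fin (n + 1) → ℤ) : Prop := ∃ j, y' = y + Pi.single j 1 ∨ y = y' + Pi.single j 1

lemma Adj1.symm {y y' : Fin (n + 1) → ℤ} (h : Adj1 y y') : Adj1 y' y := by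
  obtain ⟨j, h | h⟩ := h
  · exact ⟨j, Or.inr h⟩
  · exact ⟨j, Or.inl h⟩

lemma Adj1.ne {y y' : Fin (n + 1) → ℤ} (h : Adj1 y y') : y ≠ y' := by
  rintro rfl
  obtain ⟨j, h | h⟩ := h <;>
  · have := congrFun h j
    simp at this

lemma latAdj_up (h : ℤ) (y : Fin (n + 1) → ℤ) : LatAdj (pt h y) (pt (h + 1) y) := by
  refine ⟨(0, true), ?_⟩
  funext i
  refine Fin.cases ?_ (fun j => ?_) i
  · simp [stepVec]
  · simp [stepVec]

lemma latAdj_side (h : ℤ) {y y' : Fin (n + 1) → ℤ} (hy : Adj1 y y') : LatAdj (pt h y) (pt h y') := by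
  obtain ⟨j, hj | hj⟩ := hy
  · refine ⟨(j.succ, true), ?_⟩
    funext i
    refine Fin.cases ?_ (fun k => ?_) i
    · simp [stepVec]
    · rw [hj]
      simp [stepVec, Pi.single_apply, Fin.succ_inj]
  · refine ⟨(j.succ, false), ?_⟩
    funext i
    refine Fin.cases ?_ (fun k => ?_) i
    · simp [stepVec]
    · rw [hj]
      simp [stepVec, Pi.single_apply, Fin.succ_inj]
      split_ifs <;> ring

/-- valid states: two distinct grid points -/
def Vd (w : ℕ) (c : Fin (n + 1) → ℤ) (s : (Fin (n + 1) → ℤ) × (Fin (n + 1) → ℤ)) : Prop :=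
  Gd w c s.1 ∧ Gd w c s.2 ∧ s.1 ≠ s.2

/-- one move of at most one token -/
def St (w : ℕ) (c : Fin (n + 1) → ℤ) (s t : (Fin (n + 1) → ℤ) × (Fin (n + 1) → ℤ)) : Prop :=
  Vd w c s ∧ Vd w c t ∧ ((t.2 = s.2 ∧ (t.1 = s.1 ∨ Adj1 s.1 t.1)) ∨
    (t.1 = s.1 ∧ (t.2 = s.2 ∨ Adj1 s.2 t.2)))

/-- `k` moves -/
def Rk (w : ℕ) (c : Fin (n + 1) → ℤ) : ℕ → (Fin (n + 1) → ℤ) × (Fin (n + 1) → ℤ) →
    (Fin (n + 1) → ℤ) × (Fin (n + 1) → ℤ) → Prop
  | 0, s, t => s = t ∧ Vd w c s
  | k + 1, s, t => ∃ u, St w c s u ∧ Rk w c k u t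

section moves

variable {w : ℕ} {c : Fin (n + 1) → ℤ} {s t u : (Fin (n + 1) → ℤ) × (Fin (n + 1) → ℤ)}

lemma Vd.swap (h : Vd w c s) : Vd w c s.swap := ⟨h.2.1, h.1, h.2.2.symm⟩

lemma St.swap (h : St w c s t) : St w c s.swap t.swap := by
  obtain ⟨h1, h2, h3⟩ := h
  refine ⟨h1.swap, h2.swap, ?_⟩
  rcases h3 with h3 | h3
  · exact Or.inr h3
  · exact Or.inl h3

lemma St.symm (h : St w c s t) : St w c t s := by
  obtain ⟨h1, h2, h3⟩ := h
  refine ⟨h2, h1, ?_⟩
  rcases h3 with ⟨h3, h4⟩ | ⟨h3, h4⟩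
  · exact Or.inl ⟨h3.symm, h4.imp Eq.symm Adj1.symm⟩
  · exact Or.inr ⟨h3.symm, h4.imp Eq.symm Adj1.symm⟩

lemma St.idle (h : Vd w c s) : St w c s s := ⟨h, h, Or.inl ⟨rfl, Or.inl rfl⟩⟩

lemma Rk.trans {k m : ℕ} (h : Rk w c k s t) (h' : Rk w c m t u) : Rk w c (k + m) s u := by
  induction k generalizing s with
  | zero => obtain ⟨rfl, _⟩ := h; rwa [Nat.zero_add]
  | succ k ih =>
    obtain ⟨x, hx, hxt⟩ := h
    rw [Nat.succ_add]
    exact ⟨x, hx, ih hxt⟩

lemma Rk.right {k : ℕ} (h : Rk w c k s t) : Vd w c t := by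
  induction k generalizing s with
  | zero => obtain ⟨rfl, h⟩ := h; exact h
  | succ k ih => obtain ⟨x, _, hxt⟩ := h; exact ih hxt

lemma Rk.one (h : St w c s t) : Rk w c 1 s t := ⟨t, h, rfl, h.2.1⟩

lemma Rk.symm {k : ℕ} (h : Rk w c k s t) : Rk w c k t s := by
  induction k generalizing s with
  | zero => obtain ⟨rfl, h⟩ := h; exact ⟨rfl, h⟩
  | succ k ih =>
    obtain ⟨x, hx, hxt⟩ := h
    exact (ih hxt).trans (Rk.one hx.symm)

lemma Rk.swap {k : ℕ} (h : Rk w c k s t) : Rk w c k s.swap t.swap := by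
  induction k generalizing s with
  | zero => obtain ⟨rfl, h⟩ := h; exact ⟨rfl, h.swap⟩
  | succ k ih =>
    obtain ⟨x, hx, hxt⟩ := h
    exact ⟨x.swap, hx.swap, ih hxt⟩

lemma Rk.idle (h : Vd w c s) (k : ℕ) : Rk w c k s s := by
  induction k with
  | zero => exact ⟨rfl, h⟩
  | succ k ih => exact ⟨s, St.idle h, ih⟩

/-- the potential -/
def pot (c : Fin (n + 1) → ℤ) (s : (Fin (n + 1) → ℤ) × (Fin (n + 1) → ℤ)) : ℤ :=
  ∑ j, (s.1 j - c j) + ∑ j, (s.2 j - c j)

lemma pot_swap : pot c s.swap = pot c s := by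
  unfold pot
  simp only [Prod.fst_swap, Prod.snd_swap]
  ring

lemma pot_nonneg (h : Vd w c s) : 0 ≤ pot c s := by
  unfold pot
  apply add_nonneg
  · exact Finset.sum_nonneg fun j _ => by have := (h.1 j).1; linarith
  · exact Finset.sum_nonneg fun j _ => by have := (h.2.1 j).1; linarith

lemma pot_le (h : Vd w c s) : pot c s ≤ 2 * ((n + 1) * ((w : ℤ) - 1)) := by
  unfold pot
  have h1 : ∑ j, (s.1 j - c j) ≤ ∑ _j : Fin (n + 1), ((w : ℤ) - 1) :=
    Finset.sum_le_sum fun j _ => by have := (h.1 j).2; linarith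
  have h2 : ∑ j, (s.2 j - c j) ≤ ∑ _j : Fin (n + 1), ((w : ℤ) - 1) :=
    Finset.sum_le_sum fun j _ => by have := (h.2.1 j).2; linarith
  simp only [Finset.sum_const, Finset.card_univ, Fintype.card_fin, nsmul_eq_mul, Nat.cast_add,
    Nat.cast_one] at h1 h2
  linarith

/-- decrease the first token -/
lemma dec_first (h : Vd w c s) {i : Fin (n + 1)} (hi : c i < s.1 i) (hne : s.1 - Pi.single i 1 ≠ s.2) :
    ∃ u, St w c s u ∧ pot c u = pot c s - 1 := by
  refine ⟨(s.1 - Pi.single i 1, s.2), ⟨h, ⟨?_, h.2.1, hne⟩, Or.inl ⟨rfl, Or.inr ⟨i, Or.inr ?_⟩⟩⟩, ?_⟩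
  · intro j
    have hj := h.1 j
    by_cases hji : j = i
    · subst hji
      simp only [Pi.sub_apply, Pi.single_eq_same]
      omega
    · simp only [Pi.sub_apply, Pi.single_eq_of_ne hji, sub_zero]
      exact hj
  · simp
  · unfold pot
    simp only [Pi.sub_apply]
    have : ∑ j, (s.1 j - (Pi.single i (1 : ℤ) : Fin (n + 1) → ℤ) j - c j) = ∑ j, (s.1 j - c j) - 1 := by
      have e : ∀ j, s.1 j - (Pi.single i (1 : ℤ) : Fin (n + 1) → ℤ) j - c j =
          (s.1 j - c j) - (Pi.single i (1 : ℤ) : Fin (n + 1) → ℤ) j := fun j => by ring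
      simp only [e]
      rw [Finset.sum_sub_distrib, Finset.sum_pi_single']
      simp
    rw [this]
    ring

lemma dec_second (h : Vd w c s) {i : Fin (n + 1)} (hi : c i < s.2 i) (hne : s.2 - Pi.single i 1 ≠ s.1) :
    ∃ u, St w c s u ∧ pot c u = pot c s - 1 := by
  obtain ⟨u, hu, hp⟩ := dec_first (s := s.swap) h.swap (i := i) hi hne
  refine ⟨u.swap, ?_, ?_⟩
  · simpa using hu.swap
  · rw [pot_swap, hp, pot_swap]

lemma exists_gt {y : Fin (n + 1) → ℤ} (hy : Gd w c y) (hne : y ≠ c) : ∃ i, c i < y i := by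
  by_contra hcon
  push Not at hcon
  exact hne (funext fun i => le_antisymm (hcon i) (hy i).1)

/-- a pair which is not of the form `{c, c + e_i}` can be decreased -/
lemma dec (h : Vd w c s) (h1 : ∀ i, s ≠ (c, c + Pi.single i 1)) (h2 : ∀ i, s ≠ (c + Pi.single i 1, c)) :
    ∃ u, St w c s u ∧ pot c u = pot c s - 1 := by
  by_cases ha : s.1 = c
  · have hb : s.2 ≠ c := fun hb => h.2.2 (ha.trans hb.symm)
    obtain ⟨i, hi⟩ := exists_gt h.2.1 hb
    apply dec_second h hi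
    intro he
    apply h1 i
    apply Prod.ext
    · exact ha
    · show s.2 = c + Pi.single i 1
      rw [← ha, ← he]; simp
  · obtain ⟨i, hi⟩ := exists_gt h.1 ha
    by_cases hne : s.1 - Pi.single i 1 = s.2
    · by_cases hb : s.2 = c
      · exfalso
        apply h2 i
        apply Prod.ext
        · show s.1 = c + Pi.single i 1
          rw [← hb, ← hne]; simp
        · exact hb
      · obtain ⟨j, hj⟩ := exists_gt h.2.1 hb
        apply dec_second h hj
        intro he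
        have e1 := congrFun he j
        have e2 := congrFun hne j
        simp only [Pi.sub_apply, Pi.single_eq_same] at e1 e2
        have e3 : (0 : ℤ) ≤ (Pi.single i (1 : ℤ) : Fin (n + 1) → ℤ) j := by
          rw [Pi.single_apply]; split_ifs <;> norm_num
        omega
    · exact dec_first h hi hne

lemma descend (m : ℕ) : ∀ s, Vd w c s → pot c s ≤ m →
    ∃ i, Rk w c m s (c, c + Pi.single i 1) ∨ Rk w c m s (c + Pi.single i 1, c) := by
  induction m with
  | zero =>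
    intro s hs hp
    by_cases h1 : ∃ i, s = (c, c + Pi.single i 1)
    · obtain ⟨i, hi⟩ := h1
      refine ⟨i, Or.inl ?_⟩
      have := Rk.idle hs 0
      rwa [hi] at this ⊢
    · by_cases h2 : ∃ i, s = (c + Pi.single i 1, c)
      · obtain ⟨i, hi⟩ := h2
        refine ⟨i, Or.inr ?_⟩
        have := Rk.idle hs 0
        rwa [hi] at this ⊢
      · push Not at h1 h2
        obtain ⟨u, hu, hpu⟩ := dec hs h1 h2
        have := pot_nonneg hu.2.1
        exfalso
        push_cast at hp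
        omega
  | succ m ih =>
    intro s hs hp
    by_cases h1 : ∃ i, s = (c, c + Pi.single i 1)
    · obtain ⟨i, hi⟩ := h1
      refine ⟨i, Or.inl ?_⟩
      have := Rk.idle hs (m + 1)
      rwa [hi] at this ⊢
    · by_cases h2 : ∃ i, s = (c + Pi.single i 1, c)
      · obtain ⟨i, hi⟩ := h2
        refine ⟨i, Or.inr ?_⟩
        have := Rk.idle hs (m + 1)
        rwa [hi] at this ⊢
      · push Not at h1 h2
        obtain ⟨u, hu, hpu⟩ := dec hs h1 h2
        obtain ⟨i, hi⟩ := ih u hu.2.1 (by push_cast at hp; omega)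
        exact ⟨i, hi.imp (fun h => ⟨u, hu, h⟩) (fun h => ⟨u, hu, h⟩)⟩

lemma canon (hw : 2 ≤ w) (i : Fin (n + 1)) :
    Rk w c 2 (c, c + Pi.single i 1) (c, c + Pi.single 0 1) := by
  have hc : Gd w c c := fun j => ⟨le_rfl, by have : (2 : ℤ) ≤ w := by exact_mod_cast hw
                                             linarith⟩
  have hs : ∀ k : Fin (n + 1), Gd w c (c + Pi.single k 1) := by
    intro k j
    have : (2 : ℤ) ≤ w := by exact_mod_cast hw
    by_cases hjk : j = k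
    · subst hjk; simp only [Pi.add_apply, Pi.single_eq_same]; omega
    · simp only [Pi.add_apply, Pi.single_eq_of_ne hjk]; omega
  have hne : ∀ k : Fin (n + 1), c ≠ c + Pi.single k 1 := by
    intro k he
    have := congrFun he k
    simp at this
  by_cases hi : i = 0
  · subst hi
    exact Rk.idle ⟨hc, hs 0, hne 0⟩ 2
  · have hv2 : Vd w c (c, c + Pi.single i 1 + Pi.single 0 1) := by
      refine ⟨hc, ?_, ?_⟩
      · intro j
        have : (2 : ℤ) ≤ w := by exact_mod_cast hw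
        simp only [Pi.add_apply, Pi.single_apply]
        split_ifs with h1 h2
        · exact absurd (h1.symm.trans h2) hi
        all_goals omega
      · intro he
        have := congrFun he 0
        simp only [Pi.add_apply, Pi.single_eq_same] at this
        have h3 : (0 : ℤ) ≤ (Pi.single i (1 : ℤ) : Fin (n + 1) → ℤ) 0 := by
          rw [Pi.single_apply]; split_ifs <;> norm_num
        omega
    have s1 : St w c (c, c + Pi.single i 1) (c, c + Pi.single i 1 + Pi.single 0 1) :=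
      ⟨⟨hc, hs i, hne i⟩, hv2, Or.inr ⟨rfl, Or.inr ⟨0, Or.inl rfl⟩⟩⟩
    have s2 : St w c (c, c + Pi.single i 1 + Pi.single 0 1) (c, c + Pi.single 0 1) := by
      refine ⟨hv2, ⟨hc, hs 0, hne 0⟩, Or.inr ⟨rfl, Or.inr ⟨i, Or.inr ?_⟩⟩⟩
      show c + Pi.single i 1 + Pi.single 0 1 = c + Pi.single 0 1 + Pi.single i 1
      ring
    exact (Rk.one s1).trans (Rk.one s2)

/-- number of moves to the canonical pair -/
def MT (n w : ℕ) : ℕ := 2 * ((n + 1) * (w - 1)) + 2

lemma toCanon (hw : 2 ≤ w) (h : Vd w c s) :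
    Rk w c (MT n w) s (c, c + Pi.single 0 1) ∨ Rk w c (MT n w) s (c + Pi.single 0 1, c) := by
  have hp : pot c s ≤ ((2 * ((n + 1) * (w - 1)) : ℕ) : ℤ) := by
    have := pot_le h
    push_cast [Nat.cast_sub (by omega : 1 ≤ w)]
    exact this
  obtain ⟨i, hi | hi⟩ := descend _ s h hp
  · exact Or.inl (hi.trans (canon hw i))
  · exact Or.inr (hi.trans (canon hw i).swap)

lemma connect (hw : 2 ≤ w) (hs : Vd w c s) (ht : Vd w c t) :
    Rk w c (2 * MT n w) s t ∨ Rk w c (2 * MT n w) s t.swap := by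
  rw [two_mul]
  rcases toCanon hw hs with h1 | h1 <;> rcases toCanon hw ht with h2 | h2
  · exact Or.inl (h1.trans h2.symm)
  · exact Or.inr (h1.trans h2.symm.swap)
  · exact Or.inr (h1.trans h2.symm.swap)
  · exact Or.inl (h1.trans h2.symm)

end moves

/-- a path: adjacent vertices, no repetition, given ends, inside a set -/
structure PL (A : Set (V (n + 2))) (x y : V (n + 2)) (l : List (V (n + 2))) : Prop where
  chain : l.IsChain LatAdj
  nodup : l.Nodup
  head : l.head? = some x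
  last : l.getLast? = some y
  mem : ∀ v ∈ l, v ∈ A

lemma PL.mono {A B : Set (V (n + 2))} {x y : V (n + 2)} {l : List (V (n + 2))} (h : PL A x y l)
    (hAB : A ⊆ B) : PL B x y l := ⟨h.chain, h.nodup, h.head, h.last, fun v hv => hAB (h.mem v hv)⟩

/-- prepend a vertex -/
lemma PL.cons {A : Set (V (n + 2))} {x y z : V (n + 2)} {l : List (V (n + 2))} (h : PL A x y l)
    (hz : z ∈ A) (hzl : z ∉ l) (hzx : LatAdj z x) : PL A z y (z :: l) := by
  refine ⟨?_, ?_, rfl, ?_, ?_⟩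
  · rw [List.isChain_cons]
    refine ⟨fun v hv => ?_, h.chain⟩
    rw [h.head] at hv
    rw [Option.mem_some_iff] at hv
    exact hv ▸ hzx
  · exact List.nodup_cons.2 ⟨hzl, h.nodup⟩
  · rw [List.getLast?_cons, h.last]
    rfl
  · intro v hv
    rcases List.mem_cons.1 hv with rfl | hv
    · exact hz
    · exact h.mem v hv

lemma PL.single {A : Set (V (n + 2))} {x : V (n + 2)} (hx : x ∈ A) : PL A x x [x] :=
  ⟨by simp, by simp, rfl, rfl, by simpa using hx⟩

/-- one level for one token: from `(a, h)` sideways to `(a', h)` (if `a' ≠ a`) and up -/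
lemma level {w : ℕ} {c : Fin (n + 1) → ℤ} {h : ℤ} {k : ℕ} {a a' y : Fin (n + 1) → ℤ}
    {l : List (V (n + 2))} (hl : PL (TB w c (h + 1) (h + 1 + k)) (pt (h + 1) a') (pt (h + 1 + k) y) l)
    (ha : Gd w c a) (ha' : Gd w c a') (hs : a' = a ∨ Adj1 a a') :
    ∃ l', PL (TB w c h (h + (k + 1 : ℕ))) (pt h a) (pt (h + (k + 1 : ℕ)) y) l' ∧
      ∀ v ∈ l', v ∈ l ∨ v = pt h a ∨ v = pt h a' := by
  have he : h + ((k + 1 : ℕ) : ℤ) = h + 1 + k := by push_cast; ring
  have hm : PL (TB w c h (h + (k + 1 : ℕ))) (pt (h + 1) a') (pt (h + (k + 1 : ℕ)) y) l := by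
    rw [he]
    exact hl.mono (TB_mono (by linarith) le_rfl)
  have hnot : ∀ b, pt h b ∉ l := by
    intro b hb
    have := (hl.mem _ hb).1
    simp at this
  have h1 : PL (TB w c h (h + (k + 1 : ℕ))) (pt h a') (pt (h + (k + 1 : ℕ)) y) (pt h a' :: l) := by
    refine hm.cons ?_ (hnot _) (latAdj_up h a')
    rw [pt_mem_TB]
    refine ⟨le_rfl, ?_, ha'⟩
    push_cast
    linarith [(Nat.cast_nonneg k : (0 : ℤ) ≤ k)]
  rcases hs with rfl | hs
  · exact ⟨_, h1, fun v hv => by rcases List.mem_cons.1 hv with rfl | hv <;> tauto⟩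
  · refine ⟨pt h a :: pt h a' :: l, h1.cons ?_ ?_ (latAdj_side h hs), ?_⟩
    · rw [pt_mem_TB]
      refine ⟨le_rfl, ?_, ha⟩
      push_cast
      linarith [(Nat.cast_nonneg k : (0 : ℤ) ≤ k)]
    · intro hcon
      rcases List.mem_cons.1 hcon with he' | he'
      · exact hs.ne (pt_inj.1 he').2
      · exact hnot _ he'
    · intro v hv
      rcases List.mem_cons.1 hv with rfl | hv
      · tauto
      · rcases List.mem_cons.1 hv with rfl | hv <;> tauto

/-- moves give disjoint paths -/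
lemma paths_of_moves {w : ℕ} {c : Fin (n + 1) → ℤ} (k : ℕ) :
    ∀ (s t : (Fin (n + 1) → ℤ) × (Fin (n + 1) → ℤ)), Rk w c k s t → ∀ h : ℤ,
      ∃ l l' : List (V (n + 2)), PL (TB w c h (h + k)) (pt h s.1) (pt (h + k) t.1) l ∧
        PL (TB w c h (h + k)) (pt h s.2) (pt (h + k) t.2) l' ∧ l.Disjoint l' := by
  induction k with
  | zero =>
    rintro s t ⟨rfl, hv⟩ h
    refine ⟨[pt h s.1], [pt h s.2], ?_, ?_, ?_⟩
    · simp only [Nat.cast_zero, add_zero]
      exact PL.single (pt_mem_TB.2 ⟨le_rfl, le_rfl, hv.1⟩)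
    · simp only [Nat.cast_zero, add_zero]
      exact PL.single (pt_mem_TB.2 ⟨le_rfl, le_rfl, hv.2.1⟩)
    · rw [List.disjoint_singleton, List.mem_singleton, pt_inj]
      rintro ⟨-, he⟩
      exact hv.2.2 he.symm
  | succ k ih =>
    rintro s t ⟨u, hsu, hut⟩ h
    obtain ⟨l, l', hl, hl', hd⟩ := ih u t hut (h + 1)
    obtain ⟨hs, hu, hmv⟩ := hsu
    have m1 : u.1 = s.1 ∨ Adj1 s.1 u.1 := by
      rcases hmv with hmv | hmv
      · exact hmv.2
      · exact Or.inl hmv.1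
    have m2 : u.2 = s.2 ∨ Adj1 s.2 u.2 := by
      rcases hmv with hmv | hmv
      · exact Or.inl hmv.1
      · exact hmv.2
    obtain ⟨r, hr, hr'⟩ := level hl hs.1 hu.1 m1
    obtain ⟨r', hq, hq'⟩ := level hl' hs.2.1 hu.2.1 m2
    refine ⟨r, r', hr, hq, ?_⟩
    intro v hv hv'
    have hlv : ∀ b, pt h b ∉ l := by
      intro b hb
      have := (hl.mem _ hb).1
      simp at this
    have hlv' : ∀ b, pt h b ∉ l' := by
      intro b hb
      have := (hl'.mem _ hb).1
      simp at this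
    rcases hr' v hv with h1 | h1 | h1 <;> rcases hq' v hv' with h2 | h2 | h2
    · exact hd h1 h2
    · exact hlv _ (h2 ▸ h1)
    · exact hlv _ (h2 ▸ h1)
    · exact hlv' _ (h1 ▸ h2)
    · exact hs.2.2 (pt_inj.1 (h1.symm.trans h2)).2
    · have e := (pt_inj.1 (h1.symm.trans h2)).2
      rcases hmv with hmv | hmv
      · exact hs.2.2 (e.trans hmv.1)
      · exact hu.2.2 (hmv.1.trans e)
    · exact hlv' _ (h1 ▸ h2)
    · have e := (pt_inj.1 (h1.symm.trans h2)).2
      rcases hmv with hmv | hmv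
      · exact hu.2.2 (e.trans hmv.1.symm)
      · exact hs.2.2 (hmv.1.symm.trans e)
    · exact hu.2.2 (pt_inj.1 (h1.symm.trans h2)).2

/-- height of the token boxes -/
def HT (n w : ℕ) : ℕ := 2 * MT n w + 1

lemma HT_pos (n w : ℕ) : 1 ≤ HT n w := by unfold HT; omega

/-- TOKEN LEMMA: two tokens -/
theorem token (w : ℕ) (hw : 2 ≤ w) (c : Fin (n + 1) → ℤ) {P P' v v' : Fin (n + 1) → ℤ}
    (hP : Gd w c P) (hP' : Gd w c P') (hPP : P ≠ P') (hv : Gd w c v) (hv' : Gd w c v') (hvv : v ≠ v') :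
    ∃ l l' : List (V (n + 2)), l.Disjoint l' ∧
      ((PL (TB w c 1 (HT n w)) (pt 1 v) (pt (HT n w) P) l ∧
        PL (TB w c 1 (HT n w)) (pt 1 v') (pt (HT n w) P') l') ∨
      (PL (TB w c 1 (HT n w)) (pt 1 v) (pt (HT n w) P') l ∧
        PL (TB w c 1 (HT n w)) (pt 1 v') (pt (HT n w) P) l')) := by
  have he : (1 : ℤ) + ((2 * MT n w : ℕ) : ℤ) = (HT n w : ℤ) := by unfold HT; push_cast; ring
  rcases connect (s := (v, v')) (t := (P, P')) hw ⟨hv, hv', hvv⟩ ⟨hP, hP', hPP⟩ with h | h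
  · obtain ⟨l, l', h1, h2, h3⟩ := paths_of_moves _ _ _ h 1
    rw [he] at h1 h2
    exact ⟨l, l', h3, Or.inl ⟨h1, h2⟩⟩
  · obtain ⟨l, l', h1, h2, h3⟩ := paths_of_moves _ _ _ h 1
    rw [he] at h1 h2
    exact ⟨l, l', h3, Or.inr ⟨h1, h2⟩⟩

/-- lateral distance -/
def ld (y y' : Fin (n + 1) → ℤ) : ℕ := ∑ j, (y j - y' j).natAbs

lemma ld_step {w : ℕ} {c y y' : Fin (n + 1) → ℤ} (hy : Gd w c y) (hy' : Gd w c y') (hne : y ≠ y') :
    ∃ z, Gd w c z ∧ Adj1 y z ∧ ld z y' + 1 = ld y y' := by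
  obtain ⟨j, hj⟩ : ∃ j, y j ≠ y' j := by
    by_contra hcon
    push Not at hcon
    exact hne (funext hcon)
  have key : ∀ z : Fin (n + 1) → ℤ, (∀ k, k ≠ j → z k = y k) →
      (z j - y' j).natAbs + 1 = (y j - y' j).natAbs → ld z y' + 1 = ld y y' := by
    intro z hz hzj
    unfold ld
    rw [← Finset.add_sum_erase _ _ (Finset.mem_univ j), ← Finset.add_sum_erase _ _ (Finset.mem_univ j),
      ← hzj]
    have : ∑ x ∈ Finset.univ.erase j, (z x - y' x).natAbs =
        ∑ x ∈ Finset.univ.erase j, (y x - y' x).natAbs := by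
      apply Finset.sum_congr rfl
      intro k hk
      rw [hz k (Finset.ne_of_mem_erase hk)]
    rw [this]
    ring
  rcases lt_or_gt_of_ne hj with hlt | hgt
  · refine ⟨y + Pi.single j 1, ?_, ⟨j, Or.inl rfl⟩, ?_⟩
    · intro k
      have h1 := hy k
      have h2 := hy' k
      by_cases hk : k = j
      · subst hk; simp only [Pi.add_apply, Pi.single_eq_same]; omega
      · simp only [Pi.add_apply, Pi.single_eq_of_ne hk, add_zero]; exact h1
    · apply key
      · intro k hk; simp [Pi.single_eq_of_ne hk]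
      · simp only [Pi.add_apply, Pi.single_eq_same]; omega
  · refine ⟨y - Pi.single j 1, ?_, ⟨j, Or.inr (by simp)⟩, ?_⟩
    · intro k
      have h1 := hy k
      have h2 := hy' k
      by_cases hk : k = j
      · subst hk; simp only [Pi.sub_apply, Pi.single_eq_same]; omega
      · simp only [Pi.sub_apply, Pi.single_eq_of_ne hk, sub_zero]; exact h1
    · apply key
      · intro k hk; simp [Pi.single_eq_of_ne hk]
      · simp only [Pi.sub_apply, Pi.single_eq_same]; omega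

lemma ld_le {w : ℕ} {c y y' : Fin (n + 1) → ℤ} (hy : Gd w c y) (hy' : Gd w c y') :
    ld y y' ≤ (n + 1) * (w - 1) := by
  unfold ld
  have : ∑ j, (y j - y' j).natAbs ≤ ∑ _j : Fin (n + 1), (w - 1) := by
    apply Finset.sum_le_sum
    intro j _
    have h1 := hy j
    have h2 := hy' j
    omega
  simpa using this

/-- one token, `k` levels -/
lemma one_path {w : ℕ} {c : Fin (n + 1) → ℤ} (k : ℕ) :
    ∀ (y y' : Fin (n + 1) → ℤ), Gd w c y → Gd w c y' → ld y y' ≤ k → ∀ h : ℤ,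
      ∃ l : List (V (n + 2)), PL (TB w c h (h + k)) (pt h y) (pt (h + k) y') l := by
  induction k with
  | zero =>
    intro y y' hy hy' hd h
    have : y = y' := by
      by_contra hne
      obtain ⟨z, _, _, hz⟩ := ld_step hy hy' hne
      omega
    subst this
    refine ⟨[pt h y], ?_⟩
    simp only [Nat.cast_zero, add_zero]
    exact PL.single (pt_mem_TB.2 ⟨le_rfl, le_rfl, hy⟩)
  | succ k ih =>
    intro y y' hy hy' hd h
    by_cases hne : y = y'
    · subst hne
      have h0 : ld y y = 0 := by simp [ld]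
      obtain ⟨l, hl⟩ := ih y y hy hy (by omega) (h + 1)
      obtain ⟨r, hr, -⟩ := level hl hy hy (Or.inl rfl)
      exact ⟨r, hr⟩
    · obtain ⟨z, hz, hyz, hzd⟩ := ld_step hy hy' hne
      obtain ⟨l, hl⟩ := ih z y' hz hy' (by omega) (h + 1)
      obtain ⟨r, hr, -⟩ := level hl hy hz (Or.inr hyz)
      exact ⟨r, hr⟩

/-- TOKEN LEMMA: one token -/
theorem token_one (w : ℕ) (c : Fin (n + 1) → ℤ) {P v : Fin (n + 1) → ℤ}
    (hP : Gd w c P) (hv : Gd w c v) :
    ∃ l : List (V (n + 2)), PL (TB w c 1 (HT n w)) (pt 1 v) (pt (HT n w) P) l := by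
  have he : (1 : ℤ) + ((2 * MT n w : ℕ) : ℤ) = (HT n w : ℤ) := by unfold HT; push_cast; ring
  obtain ⟨l, hl⟩ := one_path (2 * MT n w) v P hv hP (by
    have := ld_le hv hP
    unfold MT
    omega) 1
  rw [he] at hl
  exact ⟨l, hl⟩

/-- paths in one layer -/
lemma layer_path {w : ℕ} {c y' : Fin (n + 1) → ℤ} (hy' : Gd w c y') (h : ℤ) (k : ℕ) :
    ∀ y : Fin (n + 1) → ℤ, Gd w c y → ld y y' = k →
      ∃ l : List (V (n + 2)), PL (TB w c h h) (pt h y) (pt h y') l ∧
        ∀ z, pt h z ∈ l → ld z y' ≤ k := by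
  induction k with
  | zero =>
    intro y hy hd
    have : y = y' := by
      by_contra hne
      obtain ⟨z, _, _, hz⟩ := ld_step hy hy' hne
      omega
    subst this
    refine ⟨[pt h y], PL.single (pt_mem_TB.2 ⟨le_rfl, le_rfl, hy⟩), ?_⟩
    intro z hz
    rw [List.mem_singleton, pt_inj] at hz
    rw [hz.2]
    exact hd.le
  | succ k ih =>
    intro y hy hd
    have hne : y ≠ y' := by
      rintro rfl
      simp [ld] at hd
    obtain ⟨z, hz, hyz, hzd⟩ := ld_step hy hy' hne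
    obtain ⟨l, hl, hl'⟩ := ih z hz (by omega)
    refine ⟨pt h y :: l, hl.cons (pt_mem_TB.2 ⟨le_rfl, le_rfl, hy⟩) ?_ (latAdj_side h hyz), ?_⟩
    · intro hcon
      have := hl' y hcon
      omega
    · intro u hu
      rcases List.mem_cons.1 hu with hu | hu
      · rw [(pt_inj.1 hu).2]; exact hd.le
      · exact (hl' u hu).trans (Nat.le_succ k)

/-- TOKEN LEMMA: joining the two tokens of a cell -/
theorem token_join (w : ℕ) (c : Fin (n + 1) → ℤ) {v v' : Fin (n + 1) → ℤ}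
    (hv : Gd w c v) (hv' : Gd w c v') :
    ∃ l : List (V (n + 2)), PL (TB w c 1 (HT n w)) (pt 1 v) (pt 1 v') l := by
  obtain ⟨l, hl, -⟩ := layer_path hv' 1 _ v hv rfl
  refine ⟨l, hl.mono (TB_mono le_rfl ?_)⟩
  have := HT_pos n w
  exact_mod_cast this

end Pool.Agent.H42.HG
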